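import Mathlib
import Pool.Agent.Lib.MP_b3fe82_al.Own

/-!
A numerical semigroup of width `w` has at most `C(w + 1, 2)` minimal relations; more precisely at most
`((w / δ)² + e - 1) / 2 ≤ C(w / δ + 1, 2)`, where `δ` is the greatest common divisor of the differences
of the `e` generators.
-/

set_option autoImplicit false

namespace Pool.Agent.Results.MP_b3fe82_al.WidthBound

/-- `A` is the minimal generating set of `Γ`. -/
def IsMinimalGenerators (Γ : AddSubmonoid ℕ) (A : Finset ℕ) : Prop :=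
  AddSubmonoid.closure (A : Set ℕ) = Γ ∧
    ∀ a ∈ A, a ∉ AddSubmonoid.closure ((A : Set ℕ) \ {a})

/-- The map `φ : ℕ^A → ℕ`, `φ(a) = ∑ aᵢ gᵢ`. -/
def phi (A : Finset ℕ) : (A → ℕ) →+ ℕ where
  toFun a := ∑ i : A, a i * (i : ℕ)
  map_zero' := by simp
  map_add' a b := by simp [add_mul, Finset.sum_add_distrib]

/-- `R` generates the kernel congruence of `φ`. -/
def IsPresentation (A : Finset ℕ) (R : Set ((A → ℕ) × (A → ℕ))) : Prop :=
  addConGen (fun x y => (x, y) ∈ R) = AddCon.ker (phi A)

/-- `ρ`: the least cardinality of a presentation. -/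
noncomputable def rho (A : Finset ℕ) : ℕ∞ :=
  ⨅ R : {R : Set ((A → ℕ) × (A → ℕ)) // IsPresentation A R}, R.1.encard

/-- The largest minus the smallest generator. -/
noncomputable def width (A : Finset ℕ) : ℕ := sSup (A : Set ℕ) - sInf (A : Set ℕ)

/-- The greatest common divisor of the differences of the generators. -/
noncomputable def diffGcd (A : Finset ℕ) : ℕ := A.gcd fun a => a - sInf (A : Set ℕ)

theorem card_bound (A : Finset ℕ) (hne : A.Nonempty) (h0 : 0 ∉ A) :
    rho A ≤ ((width A / diffGcd A + 1).choose 2 : ℕ) ∧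
      2 * rho A ≤ ((width A / diffGcd A) ^ 2 + (A.card - 1) : ℕ) := by
  classical
  obtain ⟨e, he⟩ : ∃ e, A.card = e + 1 := ⟨A.card - 1, by have := hne.card_pos; omega⟩
  let o : Fin (e + 1) ≃o A := A.orderIsoOfFin he
  let g : Fin (e + 1) → ℕ := fun i => (o i : ℕ)
  have hg : StrictMono g := fun i j hij => o.strictMono hij
  have hmem : ∀ i, g i ∈ A := fun i => (o i).2
  have hg0 : 0 < g 0 := Nat.pos_of_ne_zero fun h => h0 (h ▸ hmem 0)
  obtain ⟨R, ⟨hR1, hR3⟩, hR2⟩ := Pool.Agent.Lib.MPb3fe82.main_strong e g hg hg0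
  have hmin : sInf (A : Set ℕ) = g 0 := by
    refine le_antisymm (Nat.sInf_le (hmem 0)) ?_
    refine le_csInf ⟨g 0, hmem 0⟩ ?_
    intro a ha
    have h1 : g (o.symm ⟨a, ha⟩) = a := by
      show ((o (o.symm ⟨a, ha⟩) : A) : ℕ) = a
      rw [o.apply_symm_apply]
    rw [← h1]
    exact hg.monotone (Fin.zero_le _)
  have hmax : sSup (A : Set ℕ) = g (Fin.last e) := by
    refine le_antisymm (csSup_le ⟨g 0, hmem 0⟩ ?_) (le_csSup A.bddAbove (hmem _))
    intro a ha
    have h1 : g (o.symm ⟨a, ha⟩) = a := by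
      show ((o (o.symm ⟨a, ha⟩) : A) : ℕ) = a
      rw [o.apply_symm_apply]
    rw [← h1]
    exact hg.monotone (Fin.le_last _)
  have hgcd : diffGcd A = Finset.univ.gcd fun i => g i - g 0 := by
    unfold diffGcd
    rw [hmin]
    apply Nat.dvd_antisymm
    · refine Finset.dvd_gcd fun i _ => ?_
      exact Finset.gcd_dvd (f := fun a => a - g 0) (hmem i)
    · refine Finset.dvd_gcd fun a ha => ?_
      have h1 : g (o.symm ⟨a, ha⟩) = a := by
        show ((o (o.symm ⟨a, ha⟩) : A) : ℕ) = a
        rw [o.apply_symm_apply]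
      have h2 := Finset.gcd_dvd (f := fun i => g i - g 0) (Finset.mem_univ (o.symm ⟨a, ha⟩))
      rw [h1] at h2
      exact h2
  -- transport of the relations
  let E : (Fin (e + 1) → ℕ) →+ (A → ℕ) :=
    { toFun := fun x a => x (o.symm a)
      map_zero' := rfl
      map_add' := fun x y => rfl }
  have hE : ∀ x, phi A (E x) = ∑ i, x i * g i := by
    intro x
    show ∑ a : A, x (o.symm a) * (a : ℕ) = ∑ i, x i * g i
    rw [← Equiv.sum_comp o.toEquiv]
    refine Finset.sum_congr rfl fun i _ => ?_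
    show x (o.symm (o i)) * ((o i : A) : ℕ) = x i * g i
    rw [o.symm_apply_apply]
  have hEs : ∀ a : A → ℕ, E (fun i => a (o i)) = a := by
    intro a
    funext b
    show a (o (o.symm b)) = a b
    rw [o.apply_symm_apply]
  let R' : Finset ((A → ℕ) × (A → ℕ)) := R.image fun p => (E p.1, E p.2)
  have hpres : IsPresentation A (R' : Set ((A → ℕ) × (A → ℕ))) := by
    unfold IsPresentation
    apply le_antisymm
    · rw [AddCon.addConGen_le]
      intro x y hxy
      obtain ⟨p, hp, hp2⟩ := Finset.mem_image.1 (Finset.mem_coe.1 hxy)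
      obtain ⟨rfl, rfl⟩ := Prod.mk.inj hp2
      rw [AddCon.ker_rel, hE, hE]
      exact (hR2 p.1 p.2).1 (AddConGen.Rel.of _ _ hp)
    · intro x y hxy
      rw [AddCon.ker_rel, ← hEs x, ← hEs y, hE, hE] at hxy
      have h1 := (hR2 _ _).2 hxy
      have h2 : addConGen (fun x y => (x, y) ∈ R) ≤
          AddCon.comap E E.map_add (addConGen fun x y => (x, y) ∈ (R' : Set _)) := by
        rw [AddCon.addConGen_le]
        intro u v huv
        exact AddConGen.Rel.of _ _ (Finset.mem_coe.2
          (Finset.mem_image.2 ⟨(u, v), huv, rfl⟩))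
      have h3 := h2 h1
      rw [AddCon.comap_rel, hEs, hEs] at h3
      exact h3
  have h1 : rho A ≤ (R' : Set ((A → ℕ) × (A → ℕ))).encard :=
    iInf_le (fun R : {R : Set ((A → ℕ) × (A → ℕ)) // IsPresentation A R} => R.1.encard)
      ⟨_, hpres⟩
  rw [Set.encard_coe_eq_coe_finsetCard] at h1
  have h2 : R'.card ≤ R.card := Finset.card_image_le
  rw [hgcd, he]
  unfold width
  rw [hmin, hmax]
  constructor
  · exact h1.trans (by exact_mod_cast h2.trans hR1)
  · have h3 : 2 * R'.card ≤ ((g (Fin.last e) - g 0) / (Finset.univ.gcd fun i => g i - g 0)) ^ 2 +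
        (e + 1 - 1) := by omega
    exact (mul_le_mul_right h1 2).trans (by exact_mod_cast h3)

/-- For every numerical semigroup `Γ` with minimal generating set `A`, the number of minimal relations
is at most `C(width + 1, 2)`, at most `C(width / δ + 1, 2)`, and at most
`((width / δ)² + edim - 1) / 2`. -/
theorem result (Γ : AddSubmonoid ℕ) (hΓ : ((Γ : Set ℕ)ᶜ).Finite) (A : Finset ℕ)
    (hA : IsMinimalGenerators Γ A) :
    rho A ≤ ((width A + 1).choose 2 : ℕ) ∧
      rho A ≤ ((width A / diffGcd A + 1).choose 2 : ℕ) ∧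
      2 * rho A ≤ ((width A / diffGcd A) ^ 2 + (A.card - 1) : ℕ) := by
  have hne : A.Nonempty := by
    rw [Finset.nonempty_iff_ne_empty]
    rintro rfl
    have h1 : Γ = ⊥ := by rw [← hA.1, Finset.coe_empty, AddSubmonoid.closure_empty]
    rw [h1, AddSubmonoid.coe_bot] at hΓ
    exact (Set.finite_singleton (0 : ℕ)).infinite_compl hΓ
  have h0 : 0 ∉ A := fun h => hA.2 0 h (zero_mem _)
  obtain ⟨h1, h3⟩ := card_bound A hne h0
  refine ⟨h1.trans ?_, h1, h3⟩
  have h2 : (width A / diffGcd A + 1).choose 2 ≤ (width A + 1).choose 2 :=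
    Nat.choose_le_choose 2 (Nat.add_le_add_right (Nat.div_le_self _ _) 1)
  exact_mod_cast h2

end Pool.Agent.Results.MP_b3fe82_al.WidthBound
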